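import Pool.Agent.H14R2.LL.Defs
import Pool.Agent.H14R2.RC.S.HIGHA
import Pool.Agent.H14R2.RC.S.HIGHC
import Pool.Agent.H14R2.RC.S.HIGHD
import Pool.Agent.H14R2.RC.S.HIGHE

/-!
Task HIGHN: characters of representations without vectors invariant under large stabilisers.
-/

namespace LL14
open scoped InnerProductSpace

namespace HIGHNx
open RC14 Finset

theorem desc_bound {n : ℕ} (m : ℕ) (hm : 36 * m ≤ n) (hn : 100 ≤ n) :
    ((n : ℝ) ^ (m * 6)) ≤ Real.exp (72 * (m : ℝ) ^ 2 / n) * (n.descFactorial (m * 6) : ℝ) := by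
  have h1 : ((n + 1 - m * 6 : ℕ) : ℝ) ^ (m * 6) ≤ (n.descFactorial (m * 6) : ℝ) := by
    exact_mod_cast Nat.pow_sub_le_descFactorial n (m * 6)
  have hmn : m * 6 ≤ n := by omega
  have hn0 : (0 : ℝ) < n := by
    have : (100 : ℝ) ≤ n := by exact_mod_cast hn
    linarith
  obtain ⟨x, hx⟩ : ∃ x : ℝ, x = ((m * 6 : ℕ) : ℝ) / n := ⟨_, rfl⟩
  have hx0 : 0 ≤ x := by rw [hx]; positivity
  have hx1 : x ≤ 1 / 6 := by
    rw [hx, div_le_iff₀ hn0]
    have : ((36 * m : ℕ) : ℝ) ≤ n := by exact_mod_cast hm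
    push_cast at this ⊢
    linarith
  have h2 : (n : ℝ) * (1 - x) ≤ ((n + 1 - m * 6 : ℕ) : ℝ) := by
    rw [Nat.cast_sub (by omega), hx]
    push_cast
    field_simp
    linarith
  have h3 : Real.exp (-(2 * x)) ≤ 1 - x := by
    rw [Real.exp_neg, inv_le_comm₀ (Real.exp_pos _) (by linarith)]
    have e1 : 2 * x + 1 ≤ Real.exp (2 * x) := Real.add_one_le_exp _
    refine le_trans ?_ e1
    rw [inv_le_iff_one_le_mul₀ (by linarith)]
    nlinarith
  have h4 : Real.exp (-(72 * (m : ℝ) ^ 2 / n)) ≤ (1 - x) ^ (m * 6) := by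
    have e1 : Real.exp (-(72 * (m : ℝ) ^ 2 / n)) = Real.exp (-(2 * x)) ^ (m * 6) := by
      rw [← Real.exp_nat_mul, hx]
      congr 1
      push_cast
      ring
    rw [e1]
    exact pow_le_pow_left₀ (Real.exp_pos _).le h3 _
  have h5 : Real.exp (-(72 * (m : ℝ) ^ 2 / n)) * (n : ℝ) ^ (m * 6) ≤
      (n.descFactorial (m * 6) : ℝ) := by
    calc Real.exp (-(72 * (m : ℝ) ^ 2 / n)) * (n : ℝ) ^ (m * 6)
        ≤ (1 - x) ^ (m * 6) * (n : ℝ) ^ (m * 6) :=
          mul_le_mul_of_nonneg_right h4 (by positivity)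
      _ = ((n : ℝ) * (1 - x)) ^ (m * 6) := by rw [mul_pow]; ring
      _ ≤ ((n + 1 - m * 6 : ℕ) : ℝ) ^ (m * 6) :=
          pow_le_pow_left₀ (mul_nonneg hn0.le (by linarith)) h2 _
      _ ≤ _ := h1
  have h6 : Real.exp (72 * (m : ℝ) ^ 2 / n) * Real.exp (-(72 * (m : ℝ) ^ 2 / n)) = 1 := by
    rw [← Real.exp_add, add_neg_cancel, Real.exp_zero]
  calc (n : ℝ) ^ (m * 6) = Real.exp (72 * (m : ℝ) ^ 2 / n) *
        (Real.exp (-(72 * (m : ℝ) ^ 2 / n)) * (n : ℝ) ^ (m * 6)) := by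
        rw [← mul_assoc, h6, one_mul]
    _ ≤ _ := mul_le_mul_of_nonneg_left h5 (Real.exp_pos _).le

variable {V : Type*} [NormedAddCommGroup V] [InnerProductSpace ℂ V] [FiniteDimensional ℂ V]

/-- without vectors invariant under large stabilisers, 3-cycles move some vector -/
theorem highA (N : ℕ) (hN : 100 ≤ N) (n : ℕ) (hn : 1000 ≤ n) (ρ : Alt n →* (V ≃ₗᵢ[ℂ] V))
    (hV : ∃ v : V, v ≠ 0)
    (hno : ∀ K : Finset (Fin n), N * K.card ≤ n → ∀ v : V,
      (∀ h : Alt n, (∀ a ∈ K, (h : Equiv.Perm (Fin n)) a = a) → ρ h v = v) → v = 0) :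
    ∃ v : V, v ≠ 0 ∧ 1 / (7 * (N : ℝ)) * ‖v‖ ^ 2 * Fintype.card (Tup 3 n) ≤
      ∑ s : Tup 3 n, ‖ρ (c3 s) v - v‖ ^ 2 := by
  classical
  let Good : Finset (Tup 3 n) → Prop := fun T =>
    (∀ s ∈ T, ∀ t ∈ T, s ≠ t → ∀ i j, s i ≠ t j) ∧
      ∃ v : V, v ≠ 0 ∧ ∀ s ∈ T, v + ρ (c3 s) v + ρ (c3 s) (ρ (c3 s) v) = 0
  obtain ⟨T, hT, hmax⟩ := Finset.exists_max_image (univ.filter Good) card
    ⟨∅, by
      rw [mem_filter]
      obtain ⟨v, hv⟩ := hV
      exact ⟨mem_univ _, by simp, v, hv, by simp⟩⟩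
  rw [mem_filter] at hT
  obtain ⟨-, hTd, v, hv, hTv⟩ := hT
  refine ⟨v, hv, ?_⟩
  have hcard : n < 3 * N * T.card := by
    by_contra hlt
    push Not at hlt
    refine hv (hno (T.biUnion fun s => univ.image s) ?_ v ?_)
    · have h1 : (T.biUnion fun s => univ.image s).card ≤ T.card * 3 := by
        refine card_biUnion_le_card_mul _ _ _ fun s _ => ?_
        refine card_image_le.trans ?_
        simp
      refine (Nat.mul_le_mul_left N h1).trans (le_trans (le_of_eq ?_) hlt)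
      ring
    · refine HIGHA.fixed_of_c3 ρ _ v fun s hs => ?_
      have hsT : ∀ t ∈ T, ∀ i j, s i ≠ t j := by
        intro t ht i j hij
        refine hs i ?_
        rw [mem_biUnion]
        exact ⟨t, ht, mem_image.2 ⟨j, mem_univ _, hij.symm⟩⟩
      by_contra hne
      have hw : ρ (c3 s) v - v ≠ 0 := sub_ne_zero.2 hne
      have hsn : s ∉ T := fun hsT' => hsT s hsT' 0 0 rfl
      have hgood : Good (insert s T) := by
        refine ⟨?_, ρ (c3 s) v - v, hw, ?_⟩
        · intro a ha b hb hab i j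
          rw [mem_insert] at ha hb
          rcases ha with rfl | ha <;> rcases hb with rfl | hb
          · exact absurd rfl hab
          · exact hsT b hb i j
          · exact (hsT a ha j i).symm
          · exact hTd a ha b hb hab i j
        · intro t ht
          rw [mem_insert] at ht
          rcases ht with rfl | ht
          · have h3 : ρ (c3 t) (ρ (c3 t) (ρ (c3 t) v)) = v := by
              have e1 : ρ ((c3 t) ^ 3) v = v := by
                rw [HIGHA.c3_three, map_one]; rfl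
              rw [pow_succ, pow_succ, pow_one, map_mul, map_mul] at e1
              exact e1
            simp only [map_sub]
            rw [h3]
            abel
          · have hc : c3 t * c3 s = c3 s * c3 t :=
              HIGHA.c3_comm t s fun i j => (hsT t ht j i).symm
            have e1 : ∀ u : V, ρ (c3 t) (ρ (c3 s) u) = ρ (c3 s) (ρ (c3 t) u) := by
              intro u
              have := congrArg (fun g => ρ g u) hc
              simp only [map_mul] at this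
              exact this
            have e2 := hTv t ht
            have e3 := congrArg (ρ (c3 s)) e2
            rw [map_add, map_add, map_zero] at e3
            simp only [map_sub, e1]
            rw [sub_add_sub_comm, sub_add_sub_comm, e2, e3, sub_zero]
      have h1 := hmax (insert s T) (mem_filter.2 ⟨mem_univ _, hgood⟩)
      rw [card_insert_of_notMem hsn] at h1
      omega
  refine le_trans ?_ (HIGHA.sum_lower ρ v T hTd hTv (by omega))
  have h1 : (Fintype.card (Tup 3 n) : ℝ) = n * (n - 1) * (n - 2) := by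
    rw [Fintype.card_embedding_eq, Fintype.card_fin, Fintype.card_fin]
    simp only [Nat.descFactorial_succ, Nat.descFactorial_zero, mul_one, Nat.sub_zero]
    rw [Nat.cast_mul, Nat.cast_mul, Nat.cast_sub (by omega), Nat.cast_sub (by omega)]
    push_cast
    ring
  rw [h1]
  have h2 : (n : ℝ) < 3 * N * T.card := by exact_mod_cast hcard
  have h3 : (1000 : ℝ) ≤ n := by exact_mod_cast hn
  have hN0 : (0 : ℝ) < N := by
    have : (100 : ℝ) ≤ N := by exact_mod_cast hN
    linarith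
  have h4 : (1 : ℝ) / (7 * N) * (n * (n - 1) * (n - 2)) ≤
      (T.card : ℝ) * (((n : ℝ) - 3) * (n - 4)) / 2 := by
    have h5 : (n : ℝ) / (3 * N) * ((n - 3) * (n - 4)) ≤ T.card * (((n : ℝ) - 3) * (n - 4)) := by
      refine mul_le_mul_of_nonneg_right ?_ ?_
      · rw [div_le_iff₀ (by positivity)]
        linarith
      · exact mul_nonneg (by linarith) (by linarith)
    have h6 : (1 : ℝ) / (7 * N) * (n * (n - 1) * (n - 2)) ≤
        (n : ℝ) / (3 * N) * ((n - 3) * (n - 4)) / 2 := by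
      have h7 : 0 ≤ (n : ℝ) * ((n : ℝ) ^ 2 - 31 * n + 72) := by
        refine mul_nonneg (by linarith) ?_
        nlinarith
      have e1 : (n : ℝ) / (3 * N) * ((n - 3) * (n - 4)) / 2 -
          (1 : ℝ) / (7 * N) * (n * (n - 1) * (n - 2)) =
          (1 / (42 * N)) * (n * ((n : ℝ) ^ 2 - 31 * n + 72)) := by
        field_simp
        ring
      have e2 : 0 ≤ (1 / (42 * (N : ℝ))) * (n * ((n : ℝ) ^ 2 - 31 * n + 72)) :=
        mul_nonneg (by positivity) h7
      linarith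
    linarith
  have h5 : 0 ≤ ‖v‖ ^ 2 := by positivity
  calc 1 / (7 * (N : ℝ)) * ‖v‖ ^ 2 * (n * ((n : ℝ) - 1) * (n - 2))
      = ‖v‖ ^ 2 * (1 / (7 * (N : ℝ)) * (n * (n - 1) * (n - 2))) := by ring
    _ ≤ ‖v‖ ^ 2 * ((T.card : ℝ) * (((n : ℝ) - 3) * (n - 4)) / 2) :=
        mul_le_mul_of_nonneg_left h4 h5
    _ = _ := by ring

/-- character bound from the decay of products of random projections -/
theorem highE (n : ℕ) (ρ : Alt n →* (V ≃ₗᵢ[ℂ] V)) (g : Alt n)
    (hg : 2 * nfix (g : Equiv.Perm (Fin n)) ≤ n) (m : ℕ) (hm : 36 * m ≤ n) (hn : 100 ≤ n)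
    (A : ℝ) (hA : ∑ s : Fin m → Tup 6 n, hs ((List.ofFn fun i => P3 ρ (c33 (s i))).prod) ≤
      A * (Fintype.card (Tup 6 n) : ℝ) ^ m) :
    ‖chr ρ g‖ ^ 2 ≤ Real.exp (72 * (m : ℝ) ^ 2 / n) * A * Module.finrank ℂ V := by
  classical
  have hm18 : 6 * (m * 3) ≤ n := by omega
  have hm2 : m * 6 + 2 ≤ n := by omega
  obtain ⟨X, hX⟩ : ∃ X, X = Real.exp (72 * (m : ℝ) ^ 2 / n) := ⟨_, rfl⟩
  have hX0 : 0 < X := by rw [hX]; exact Real.exp_pos _
  rw [← hX]
  obtain ⟨b, hb⟩ := HIGHE.exists_B (g : Equiv.Perm (Fin n)) hg (m * 3) hm18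
  let e := (finProdFinEquiv : Fin m × Fin 3 ≃ Fin (m * 3))
  -- the triples
  let β : Fin m → Tup 3 n := fun i => ⟨fun l => b (e (i, l)), fun l l' h => by
    have := e.injective (b.injective h)
    simpa using this⟩
  have hβ : ∀ i l, β i l = b (e (i, l)) := fun i l => rfl
  have hβd : ∀ i i' l l', i ≠ i' → β i l ≠ β i' l' := by
    intro i i' l l' hii h
    have := e.injective (b.injective h)
    exact hii (congrArg Prod.fst this)
  have hβg : ∀ i i' l l', β i l ≠ (g : Equiv.Perm (Fin n)) (β i' l') :=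
    fun i i' l l' h => hb _ _ h.symm
  let γ : Fin m → Tup 3 n := fun i => HIGHE.rev3 (mv (g : Equiv.Perm (Fin n)) (β i))
  have hγ : ∀ i l, γ i l = (g : Equiv.Perm (Fin n)) (β i (Fin.rev l)) := fun i l => rfl
  let s0 : Fin m → Tup 6 n := fun i => HIGHE.join (β i) (γ i) fun l l' => hβg i i _ _
  have hs0L : ∀ i (l : Fin 3), s0 i (Fin.castAdd 3 l) = β i l := fun i l =>
    Fin.append_left (β i) (γ i) l
  have hs0R : ∀ i (l : Fin 3), s0 i (Fin.natAdd 3 l) = γ i l := fun i l =>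
    Fin.append_right (β i) (γ i) l
  have hJ : HIGHE.JI s0 := by
    rintro ⟨i, j⟩ ⟨i', j'⟩ h
    simp only at h
    induction j using Fin.addCases (m := 3) (n := 3) with
    | left l =>
      induction j' using Fin.addCases (m := 3) (n := 3) with
      | left l' =>
        rw [hs0L, hs0L] at h
        have h1 := e.injective (b.injective h)
        rw [Prod.mk.injEq] at h1
        rw [h1.1, h1.2]
      | right l' =>
        rw [hs0L, hs0R, hγ] at h
        exact absurd h (hβg _ _ _ _)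
    | right l =>
      induction j' using Fin.addCases (m := 3) (n := 3) with
      | left l' =>
        rw [hs0L, hs0R, hγ] at h
        exact absurd h.symm (hβg _ _ _ _)
      | right l' =>
        rw [hs0R, hs0R, hγ, hγ] at h
        have h1 := e.injective (b.injective ((g : Equiv.Perm (Fin n)).injective h))
        rw [Prod.mk.injEq] at h1
        have h2 := Fin.rev_injective h1.2
        rw [h1.1, h2]
  have hc33 : ∀ i, c33 (s0 i) = c3 (β i) * (g * (c3 (β i))⁻¹ * g⁻¹) := by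
    intro i
    have h1 : c33 (s0 i) = c3 (β i) * c3 (γ i) := HIGHE.c33_join _ _ _
    have h2 : c3 (γ i) = g * (c3 (β i))⁻¹ * g⁻¹ := by
      change c3 (HIGHE.rev3 (mv (g : Equiv.Perm (Fin n)) (β i))) = _
      rw [HIGHE.c3_rev, HIGHE.c3_conj]
      group
    rw [h1, h2]
  -- the trace
  have hcc : ∀ i j, i ≠ j → c3 (β i) * c3 (β j) = c3 (β j) * c3 (β i) := by
    intro i j hij
    refine HIGHE.comm_of_disj _ _ fun x => ?_
    by_cases hx : ∀ l, β i l ≠ x
    · exact Or.inl (HIGHE.c3_off _ x hx)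
    · right
      push Not at hx
      obtain ⟨l, hl⟩ := hx
      exact HIGHE.c3_off _ x fun l' hl' => hβd i j l l' hij (hl.trans hl'.symm)
  have hcg : ∀ i j, c3 (β i) * (g * (c3 (β j))⁻¹ * g⁻¹) =
      (g * (c3 (β j))⁻¹ * g⁻¹) * c3 (β i) := by
    intro i j
    have h2 : c3 (γ j) = g * (c3 (β j))⁻¹ * g⁻¹ := by
      change c3 (HIGHE.rev3 (mv (g : Equiv.Perm (Fin n)) (β j))) = _
      rw [HIGHE.c3_rev, HIGHE.c3_conj]
      group
    rw [← h2]
    refine HIGHE.comm_of_disj _ _ fun x => ?_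
    by_cases hx : ∀ l, β i l ≠ x
    · exact Or.inl (HIGHE.c3_off _ x hx)
    · right
      push Not at hx
      obtain ⟨l, hl⟩ := hx
      refine HIGHE.c3_off _ x fun l' hl' => ?_
      rw [hγ] at hl'
      exact hβg i j l _ (hl.trans hl'.symm)
  have htr := HIGHE.tr_prod ρ g m (fun i => c3 (β i)) hcg hcc
  have htr' : chr ρ g = LinearMap.trace ℂ V
      ((List.ofFn fun i => P3 ρ (c33 (s0 i))).prod * op ρ g) := by
    unfold chr
    rw [← htr]
    simp only [hc33]
  set H0 : ℝ := hs ((List.ofFn fun i => P3 ρ (c33 (s0 i))).prod) with hH0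
  have hH00 : 0 ≤ H0 := hs_nonneg _
  have h1 : ‖chr ρ g‖ ^ 2 ≤ H0 * Module.finrank ℂ V := by
    rw [htr']
    refine (trace_mul_le _ _).trans (le_of_eq ?_)
    have h2 := (hs_op_mul ρ g (1 : Module.End ℂ V)).1
    rw [mul_one, hs_one] at h2
    rw [h2]
  -- counting
  have h2 : ((univ.filter (HIGHE.JI (n := n) (m := m))).card : ℝ) * H0 ≤
      ∑ s : Fin m → Tup 6 n, hs ((List.ofFn fun i => P3 ρ (c33 (s i))).prod) := by
    calc ((univ.filter (HIGHE.JI (n := n) (m := m))).card : ℝ) * H0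
        = ∑ s ∈ univ.filter (HIGHE.JI (n := n) (m := m)),
            hs ((List.ofFn fun i => P3 ρ (c33 (s i))).prod) := by
          rw [← nsmul_eq_mul, ← sum_const]
          refine sum_congr rfl fun s hs' => ?_
          rw [mem_filter] at hs'
          exact (HIGHE.hs_JI ρ hm2 s0 s hJ hs'.2).symm
      _ ≤ _ := sum_le_sum_of_subset_of_nonneg (filter_subset _ _) fun s _ _ => hs_nonneg _
  have h3 := desc_bound m hm hn
  rw [← hX] at h3
  have h4 : ((n.descFactorial (m * 6) : ℕ) : ℝ) ≤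
      ((univ.filter (HIGHE.JI (n := n) (m := m))).card : ℝ) := by
    exact_mod_cast HIGHE.JI_card m
  set D : ℝ := ((n.descFactorial (m * 6) : ℕ) : ℝ) with hD
  have hD0 : 0 < D := by
    rw [hD]
    have : 0 < n.descFactorial (m * 6) := Nat.descFactorial_pos.2 (by omega)
    exact_mod_cast this
  have hc0 : 0 < (Fintype.card (Tup 6 n) : ℝ) := by
    rw [Fintype.card_embedding_eq, Fintype.card_fin, Fintype.card_fin]
    have : 0 < n.descFactorial 6 := Nat.descFactorial_pos.2 (by omega)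
    exact_mod_cast this
  have hc1 : (Fintype.card (Tup 6 n) : ℝ) ^ m ≤ X * D := by
    refine le_trans ?_ h3
    have h5 : (Fintype.card (Tup 6 n) : ℝ) ≤ (n : ℝ) ^ 6 := by
      rw [Fintype.card_embedding_eq, Fintype.card_fin, Fintype.card_fin]
      exact_mod_cast Nat.descFactorial_le_pow n 6
    calc (Fintype.card (Tup 6 n) : ℝ) ^ m ≤ ((n : ℝ) ^ 6) ^ m :=
          pow_le_pow_left₀ hc0.le h5 m
      _ = (n : ℝ) ^ (m * 6) := by rw [← pow_mul, mul_comm]
  have h5 : D * H0 ≤ A * (Fintype.card (Tup 6 n) : ℝ) ^ m :=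
    (mul_le_mul_of_nonneg_right h4 hH00).trans (h2.trans hA)
  have hA0 : 0 ≤ A := by
    have h6 : 0 ≤ A * (Fintype.card (Tup 6 n) : ℝ) ^ m :=
      (mul_nonneg hD0.le hH00).trans h5
    exact nonneg_of_mul_nonneg_left h6 (by positivity)
  have h6 : D * H0 ≤ D * (X * A) := by
    refine h5.trans ?_
    calc A * (Fintype.card (Tup 6 n) : ℝ) ^ m ≤ A * (X * D) :=
          mul_le_mul_of_nonneg_left hc1 hA0
      _ = D * (X * A) := by ring
  have h7 : H0 ≤ X * A := le_of_mul_le_mul_left h6 hD0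
  exact h1.trans (mul_le_mul_of_nonneg_right h7 (Nat.cast_nonneg _))

end HIGHNx

open RC14 RC852 TE852 Finset Equiv

variable {V : Type*} [NormedAddCommGroup V] [InnerProductSpace ℂ V] [FiniteDimensional ℂ V]

/-- characters of representations without vectors invariant under large stabilisers -/
theorem HIGHN (N : ℕ) (hN : 100 ≤ N) (n : ℕ) (hn : 1000 ≤ n) (ρ : Alt n →* (V ≃ₗᵢ[ℂ] V))
    (hirr : Irr ρ ⊤)
    (hno : ∀ K : Finset (Fin n), N * K.card ≤ n → ∀ v : V,
      (∀ h : Alt n, (∀ a ∈ K, (h : Equiv.Perm (Fin n)) a = a) → ρ h v = v) → v = 0)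
    (g : Alt n) (hg : 2 * nfix (g : Equiv.Perm (Fin n)) ≤ n) (m : ℕ) (hm : 36 * m ≤ n) :
    ‖chr ρ g‖ ^ 2 ≤ Real.exp (72 * (m : ℝ) ^ 2 / n) * (1 - 1 / (84 * (N : ℝ))) ^ m *
      (Module.finrank ℂ V : ℝ) ^ 2 := by
  have hN0 : (0 : ℝ) < N := by
    have : (100 : ℝ) ≤ N := by exact_mod_cast hN
    linarith
  have hV : ∃ v : V, v ≠ 0 := by
    by_contra hcon
    push Not at hcon
    apply hirr.1
    rw [Submodule.eq_bot_iff]
    intro v _
    exact hcon v
  obtain ⟨v, hv, h3⟩ := HIGHNx.highA N hN n hn ρ hV hno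
  have h36 := HIGHC n (by omega) ρ v
  have c3 : 0 < (Fintype.card (Tup 3 n) : ℝ) := by
    have : Nonempty (Tup 3 n) := ⟨Fin.castLEEmb (by omega)⟩
    exact_mod_cast Fintype.card_pos
  have c6 : 0 < (Fintype.card (Tup 6 n) : ℝ) := by
    have : Nonempty (Tup 6 n) := ⟨Fin.castLEEmb (by omega)⟩
    exact_mod_cast Fintype.card_pos
  have hc : (1 / (28 * (N : ℝ))) * ‖v‖ ^ 2 * Fintype.card (Tup 6 n) ≤
      ∑ s : Tup 6 n, ‖ρ (c33 s) v - v‖ ^ 2 := by
    rw [← le_div_iff₀ c6]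
    have h3' : (1 / (7 * (N : ℝ))) * ‖v‖ ^ 2 ≤
        (∑ s : Tup 3 n, ‖ρ (RC14.c3 s) v - v‖ ^ 2) / Fintype.card (Tup 3 n) := by
      rw [le_div_iff₀ c3]
      exact h3
    have h4 : (1 / (28 * (N : ℝ))) * ‖v‖ ^ 2 = (1 / (7 * (N : ℝ))) * ‖v‖ ^ 2 / 4 := by
      field_simp
      ring
    rw [h4]
    linarith
  have hA : ∑ s : Fin m → Tup 6 n, hs ((List.ofFn fun i => P3 ρ (c33 (s i))).prod) ≤
      (Module.finrank ℂ V * (1 - (1 / (28 * (N : ℝ))) / 3) ^ m) *
        (Fintype.card (Tup 6 n) : ℝ) ^ m :=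
    HIGHD n ρ hirr (1 / (28 * (N : ℝ))) (by omega) v hv hc m
  have hE := HIGHNx.highE n ρ g hg m hm (by omega) _ hA
  refine hE.trans (le_of_eq ?_)
  have h5 : (1 - (1 / (28 * (N : ℝ))) / 3) = 1 - 1 / (84 * (N : ℝ)) := by
    field_simp
    ring
  rw [h5]
  ring

end LL14
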